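import Mathlib

/-!
MP_65c995_pr (frozen S19375), project MK.  Definitions.

`V n` is the elementary abelian 2-group of order `q = 2^n`, `ee a b = (-1)^(a.b)`, `hat` is the
(normalised) Fourier transform on `V n`.  A symbol family `eps : Fin (M+1) → V n → {1,-1}` gives
rise to a kernel density `pp eps` on the compact space `St n M = (Bool × V n) × (ℕ → Fin (M+1))`.
-/

set_option autoImplicit false

open MeasureTheory ProbabilityTheory Filter Topology

namespace Pool.Agent.W172.MK

/-- elementary abelian 2-group -/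
abbrev V (n : ℕ) : Type := Fin n → ZMod 2

/-- the sign character of `ZMod 2` -/
noncomputable def sg (x : ZMod 2) : ℝ := if x = 0 then 1 else -1

/-- the characters `(-1)^(a.b)` -/
noncomputable def ee {n : ℕ} (a b : V n) : ℝ := sg (∑ i, a i * b i)

/-- the size of the group, as a real number -/
noncomputable def qq (n : ℕ) : ℝ := 2 ^ n

/-- normalised Fourier transform -/
noncomputable def hat {n : ℕ} (D : V n → ℝ) (a : V n) : ℝ := (∑ b, D b * ee a b) / qq n

/-- l1 norm of the Fourier transform -/
noncomputable def L1 {n : ℕ} (D : V n → ℝ) : ℝ := ∑ a, |hat D a|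

/-- starting symbol -/
noncomputable def D0 {n : ℕ} (b : V n) : ℝ := if b = 0 then 0 else qq n / (qq n - 1)

/-- one step of the recursion -/
noncomputable def Lam {n : ℕ} (u D : V n → ℝ) (b : V n) : ℝ :=
  qq n / (qq n - 1) * ((∑ b', D b' * u b') / qq n - D b * u b / qq n)

section
variable {n M : ℕ}

/-- the symbols `D_t` for a pair of sequences -/
noncomputable def DD (eps : Fin (M + 1) → V n → ℝ) (y z : ℕ → Fin (M + 1)) : ℕ → V n → ℝ
  | 0 => D0
  | t + 1 => Lam (fun b => eps (y t) b * eps (z t) b) (DD eps y z t)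

/-- level `t` term, even part -/
noncomputable def cE (eps : Fin (M + 1) → V n → ℝ) (y z : ℕ → Fin (M + 1)) (t : ℕ) (a : V n) : ℝ :=
  - hat (fun b => DD eps y z t b * (1 - eps (y t) b * eps (z t) b)) a

/-- level `t` term, odd part -/
noncomputable def cO (eps : Fin (M + 1) → V n → ℝ) (y z : ℕ → Fin (M + 1)) (t : ℕ) (a : V n) : ℝ :=
  - hat (fun b => DD eps y z t b * (eps (y t) b - eps (z t) b)) a

/-- colours -/
abbrev Col (n : ℕ) : Type := Bool × V n

/-- state space -/
abbrev St (n M : ℕ) : Type := Col n × (ℕ → Fin (M + 1))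

/-- level `t` term of the kernel -/
noncomputable def term (eps : Fin (M + 1) → V n → ℝ) (x z : St n M) (t : ℕ) : ℝ :=
  if x.1.1 = z.1.1 then cE eps x.2 z.2 t (x.1.2 + z.1.2) else cO eps x.2 z.2 t (x.1.2 + z.1.2)

/-- truncated perturbation -/
noncomputable def NT (eps : Fin (M + 1) → V n → ℝ) (T : ℕ) (x z : St n M) : ℝ :=
  ∑ t ∈ Finset.range T, term eps x z t

/-- the kernel density -/
noncomputable def pp (eps : Fin (M + 1) → V n → ℝ) (x z : St n M) : ℝ :=
  if x.1 = z.1 then 0 else 1 + ∑' t, term eps x z t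

/-- the two signs -/
noncomputable def cs (χ : Bool) : ℝ := if χ then 1 else -1

/-- symbol of the level `t` term at the character `(χ, b)` of `ZMod 2 × V n` -/
noncomputable def Nh (eps : Fin (M + 1) → V n → ℝ) (y z : ℕ → Fin (M + 1)) (t : ℕ) (χ : Bool)
    (b : V n) : ℝ :=
  - DD eps y z t b * (1 + cs χ * eps (y t) b) * (1 - cs χ * eps (z t) b)

/-- the properties of the sign family used in the construction -/
structure Good (eps : Fin (M + 1) → V n → ℝ) : Prop where
  big : 12 ≤ n
  sq : ∀ y b, eps y b = 1 ∨ eps y b = -1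
  mean : ∀ b, ∑ y, eps y b = 0
  orth : ∀ b b', b ≠ b' → ∑ y, eps y b * eps y b' = 0
  cor : ∀ y z, y ≠ z → ∀ a, |hat (fun b => eps y b * eps z b) a| ≤ 1 / 8
  har : ∀ y a, |hat (eps y) a| ≤ 1 / 8

end

/-- uniform probability measure on a finite type -/
noncomputable def unif (α : Type) [Fintype α] [MeasurableSpace α] : Measure α :=
  ((Fintype.card α : ℕ) : ENNReal)⁻¹ • Measure.count

instance unif_prob (α : Type) [Fintype α] [Nonempty α] [MeasurableSpace α]
    [MeasurableSingletonClass α] : IsProbabilityMeasure (unif α) := by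
  constructor
  simp only [unif, Measure.smul_apply, smul_eq_mul]
  rw [Measure.count_univ]
  simp only [ENat.card_eq_coe_fintype_card, ENat.toENNReal_coe]
  exact ENNReal.inv_mul_cancel (by simp) (by simp)

/-- uniform iid sequences -/
noncomputable def muSeq (M : ℕ) : Measure (ℕ → Fin (M + 1)) :=
  Measure.infinitePi (fun _ : ℕ => unif (Fin (M + 1)))

instance muSeq_prob (M : ℕ) : IsProbabilityMeasure (muSeq M) := by
  unfold muSeq; infer_instance

/-- the invariant measure on the state space -/
noncomputable def muSt (n M : ℕ) : Measure (St n M) := (unif (Col n)).prod (muSeq M)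

instance muSt_prob (n M : ℕ) : IsProbabilityMeasure (muSt n M) := by
  unfold muSt; infer_instance

/-! ### general kernels and processes -/

section
variable {S : Type} [MeasurableSpace S]

/-- a bounded doubly stochastic density whose square is the constant one -/
structure Ker (μ : Measure S) (p : S → S → ℝ) : Prop where
  meas : Measurable (Function.uncurry p)
  nonneg : ∀ x y, 0 ≤ p x y
  bdd : ∃ C : ℝ, ∀ x y, p x y ≤ C
  row : ∀ x, ∫ z, p x z ∂μ = 1
  col : ∀ y, ∫ z, p z y ∂μ = 1
  sq : ∀ x y, ∫ z, p x z * p z y ∂μ = 1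

/-- `F` represents the bridge kernel `p x z * p z y dμ(z)` -/
structure Rep (μ : Measure S) (p : S → S → ℝ) (F : S × S → unitInterval → S) : Prop where
  meas : Measurable (Function.uncurry F)
  int : ∀ x y, ∀ f : S → ℝ, Measurable f → (∃ C : ℝ, ∀ z, |f z| ≤ C) →
    ∫ u, f (F (x, y) u) = ∫ z, f z * (p x z * p z y) ∂μ

/-- sample space -/
abbrev Om (S : Type) : Type := ℤ → S × unitInterval

/-- iid innovations -/
noncomputable def PM (μ : Measure S) [IsProbabilityMeasure μ] : Measure (Om S) :=
  Measure.infinitePi (fun _ : ℤ => μ.prod (volume : Measure unitInterval))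

instance PM_prob (μ : Measure S) [IsProbabilityMeasure μ] : IsProbabilityMeasure (PM μ) := by
  unfold PM; infer_instance

/-- the process: even sites are iid, odd sites are bridges -/
def XX (F : S × S → unitInterval → S) (i : ℤ) (ω : Om S) : S :=
  if i % 2 = 0 then (ω (i / 2)).1 else F ((ω (i / 2)).1, (ω (i / 2 + 1)).1) (ω (i / 2 + 1)).2

/-- past of the process -/
abbrev past (F : S × S → unitInterval → S) (n : ℤ) : MeasurableSpace (Om S) :=
  ⨆ (m : ℤ) (_ : m ≤ n), MeasurableSpace.comap (XX F m) inferInstance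

/-- past of the innovations -/
abbrev base (S : Type) [MeasurableSpace S] (a : ℤ) : MeasurableSpace (Om S) :=
  ⨆ (m : ℤ) (_ : m ≤ a), MeasurableSpace.comap (fun ω : Om S => ω m) inferInstance

/-- transition operator -/
noncomputable def Pf (μ : Measure S) (p : S → S → ℝ) (f : S → ℝ) (x : S) : ℝ :=
  ∫ z, p x z * f z ∂μ

end

end Pool.Agent.W172.MK
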