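import Pool.Agent.W172.MK.Defs

/-!
MP_65c995_pr (frozen S19375), project MK.  Statements of the parts.
-/

set_option autoImplicit false

open MeasureTheory ProbabilityTheory Filter Topology

namespace Pool.Agent.W172.MK

/-! ### A. existence of the sign family -/

/-- A1: number of maps with a large Walsh coefficient -/
def P_WALSH : Prop := ∀ (n r : ℕ) (w : Fin r → ZMod 2), w ≠ 0 → ∀ a : V n,
  (Nat.card {ψ : V n → (Fin r → ZMod 2) |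
      1 / 8 < |hat (fun b => sg (∑ i, w i * ψ b i)) a|} : ℝ)
    ≤ 2 * Real.exp (-(qq n / 128)) * (Nat.card (V n → (Fin r → ZMod 2)) : ℝ)

/-- A2: a good map exists -/
def P_PSI : Prop := ∃ n s : ℕ, 12 ≤ n ∧ ∃ ψ : V n → (Fin (s + 1) → ZMod 2),
  (∀ b, ∃ i : Fin s, ψ b i.castSucc ≠ 0) ∧
  (∀ b b', b ≠ b' → ∃ i : Fin s, ψ b i.castSucc ≠ ψ b' i.castSucc) ∧
  ∀ w : Fin (s + 1) → ZMod 2, w ≠ 0 → ∀ a : V n,
    |hat (fun b => sg (∑ i, w i * ψ b i)) a| ≤ 1 / 8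

/-- A3: a good sign family exists -/
def P_EXIST : Prop := ∃ (n M : ℕ) (eps : Fin (M + 1) → V n → ℝ), Good eps

/-! ### B. Fourier analysis on `V n` -/

/-- B1 -/
def P_EE : Prop := ∀ n : ℕ,
  (∀ a b : V n, ee a b = 1 ∨ ee a b = -1) ∧
  (∀ a b : V n, ee a b = ee b a) ∧
  (∀ a a' b : V n, ee (a + a') b = ee a b * ee a' b) ∧
  (∀ b : V n, ee 0 b = 1) ∧
  (∀ b : V n, ∑ a : V n, ee a b = if b = 0 then qq n else 0)

/-- B2 -/
def P_FT : Prop := ∀ (n : ℕ) (D u : V n → ℝ),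
  (∀ b, D b = ∑ a, hat D a * ee a b) ∧
  (∑ a, (hat D a) ^ 2 = (∑ b, (D b) ^ 2) / qq n) ∧
  (∀ a, hat (fun b => D b * u b) a = ∑ a', hat D a' * hat u (a + a'))

/-- B3 -/
def P_HLAM : Prop := ∀ (n : ℕ), 1 ≤ n → ∀ (D u : V n → ℝ) (a : V n),
  hat (Lam u D) a =
    if a = 0 then hat (fun b => D b * u b) 0 else - hat (fun b => D b * u b) a / (qq n - 1)

/-- B4: disagreement level -/
def P_LVD : Prop := ∀ (n : ℕ), 12 ≤ n → ∀ (D u : V n → ℝ), (∀ b, u b = 1 ∨ u b = -1) →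
  (∀ a, |hat u a| ≤ 1 / 8) →
  (∀ a, |hat (fun b => D b * u b) a| ≤ 1 / 8 * L1 D) ∧
  L1 (Lam u D) ≤ 3 / 20 * L1 D ∧ ∀ a, a ≠ 0 → |hat (Lam u D) a| ≤ 1 / 4095 * L1 D

/-- B5: agreement level -/
def P_LVA : Prop := ∀ (n : ℕ), 12 ≤ n → ∀ (D : V n → ℝ),
  L1 (Lam (fun _ => 1) D) ≤ L1 D ∧ ∀ a, a ≠ 0 → |hat (Lam (fun _ => 1) D) a| ≤ |hat D a|

/-- B6: the starting symbol -/
def P_L0 : Prop := ∀ (n : ℕ), 12 ≤ n →
  L1 (D0 : V n → ℝ) = 2 ∧ hat (D0 : V n → ℝ) 0 = 1 ∧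
    ∀ a : V n, a ≠ 0 → |hat (D0 : V n → ℝ) a| ≤ 1 / 4095

/-! ### C. bounds for the terms -/

/-- C1 -/
def P_POT : Prop := ∀ (n M : ℕ) (eps : Fin (M + 1) → V n → ℝ), Good eps →
  ∀ (y z : ℕ → Fin (M + 1)) (t : ℕ) (a : V n),
    (|cE eps y z t a| ≤ 7 / 5 * (L1 (DD eps y z t) - L1 (DD eps y z (t + 1)))) ∧
    (|cO eps y z t a| ≤ 3 / 10 * (L1 (DD eps y z t) - L1 (DD eps y z (t + 1)))) ∧
    (a ≠ 0 → |cE eps y z t a| ≤ 1 / 5 * (L1 (DD eps y z t) - L1 (DD eps y z (t + 1)))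
      + (|hat (DD eps y z t) a| - |hat (DD eps y z (t + 1)) a|))

/-- C2 -/
def P_BND : Prop := ∀ (n M : ℕ) (eps : Fin (M + 1) → V n → ℝ), Good eps →
  ∀ x z : St n M, Summable (fun t => |term eps x z t|) ∧ ∑' t, |term eps x z t| ≤ 3 ∧
    (x.1 ≠ z.1 → ∑' t, |term eps x z t| ≤ 3 / 5)

/-- C3 -/
def P_SAME : Prop := ∀ (n M : ℕ) (eps : Fin (M + 1) → V n → ℝ), Good eps →
  ∀ x z : St n M, x.1 = z.1 → (∃ᶠ t in atTop, x.2 t ≠ z.2 t) → ∑' t, term eps x z t = -1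

/-- C4: symmetry, locality and boundedness of the symbols -/
def P_DDL : Prop := ∀ (n M : ℕ) (eps : Fin (M + 1) → V n → ℝ),
  (∀ y z t, DD eps y z t = DD eps z y t) ∧
  (∀ y z z' t, (∀ i, i < t → z i = z' i) → DD eps y z t = DD eps y z' t) ∧
  (∀ t b, Measurable (fun w : (ℕ → Fin (M + 1)) × (ℕ → Fin (M + 1)) => DD eps w.1 w.2 t b)) ∧
  (∀ t, ∃ C : ℝ, ∀ y z b, |DD eps y z t b| ≤ C)

/-! ### D. integrals over the state space -/

/-- D1 -/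
def P_UNIF : Prop := ∀ (n M : ℕ),
  (∀ f : Fin (M + 1) → ℝ, ∫ c, f c ∂(unif (Fin (M + 1))) = (∑ c, f c) / ((M : ℝ) + 1)) ∧
  (∀ f : Col n → ℝ, ∫ g, f g ∂(unif (Col n)) = (∑ g, f g) / (2 * qq n)) ∧
  (∀ f : St n M → ℝ, Measurable f → (∃ C : ℝ, ∀ x, |f x| ≤ C) →
    ∫ x, f x ∂(muSt n M) = (∑ g : Col n, ∫ z, f (g, z) ∂(muSeq M)) / (2 * qq n))

/-- D2: resampling one coordinate -/
def P_RES : Prop := ∀ (M : ℕ) (f : (ℕ → Fin (M + 1)) → ℝ), Measurable f →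
  (∃ C : ℝ, ∀ z, |f z| ≤ C) → ∀ t : ℕ,
  ∫ z, f z ∂(muSeq M) = ∫ z, (∑ c, f (Function.update z t c)) / ((M : ℝ) + 1) ∂(muSeq M)

/-- D3: infinitely many disagreements -/
def P_AE : Prop := ∀ (M : ℕ), 1 ≤ M → ∀ y : ℕ → Fin (M + 1),
  ∀ᵐ z ∂(muSeq M), ∃ᶠ t in atTop, y t ≠ z t

/-- D4: measurability of the kernel -/
def P_TM : Prop := ∀ (n M : ℕ) (eps : Fin (M + 1) → V n → ℝ),
  (∀ t, Measurable (fun w : St n M × St n M => term eps w.1 w.2 t)) ∧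
  (Good eps → Measurable (Function.uncurry (pp eps)))

/-- D5: averages of one step of the recursion -/
def P_LAMAVG : Prop := ∀ (n M : ℕ) (eps : Fin (M + 1) → V n → ℝ), Good eps →
  ∀ (y : Fin (M + 1)) (D : V n → ℝ) (b : V n),
    (∑ c, Lam (fun b' => eps y b' * eps c b') D b = 0) ∧
    (∑ c, Lam (fun b' => eps y b' * eps c b') D b * eps c b = 0)

/-- D6: orthogonality of the symbols -/
def P_NHZ : Prop := ∀ (n M : ℕ) (eps : Fin (M + 1) → V n → ℝ), Good eps →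
  ∀ (y y' : ℕ → Fin (M + 1)) (t s : ℕ) (χ : Bool) (b : V n), s ≤ t →
    ∫ z, Nh eps y z t χ b * Nh eps z y' s χ b ∂(muSeq M) = 0

/-- D6': orthogonality of the symbols, all cases, and row and column sums -/
def P_NHZ' : Prop := ∀ (n M : ℕ) (eps : Fin (M + 1) → V n → ℝ), Good eps →
  (∀ (y y' : ℕ → Fin (M + 1)) (t s : ℕ) (χ : Bool) (b : V n),
    ∫ z, Nh eps y z t χ b * Nh eps z y' s χ b ∂(muSeq M) = 0) ∧
  (∀ (y : ℕ → Fin (M + 1)) (t : ℕ), ∫ z, Nh eps y z t true 0 ∂(muSeq M) = 0) ∧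
  (∀ (y : ℕ → Fin (M + 1)) (t : ℕ), ∫ z, Nh eps z y t true 0 ∂(muSeq M) = 0)

/-- D7: sums over the middle colour -/
def P_COLS : Prop := ∀ (n M : ℕ) (eps : Fin (M + 1) → V n → ℝ)
  (y z y' : ℕ → Fin (M + 1)) (g g' : Col n) (t s : ℕ),
  (∑ h : Col n, term eps (g, y) (h, z) t * term eps (h, z) (g', y') s =
    (∑ χ : Bool, ∑ b : V n, (if g.1 = g'.1 then 1 else cs χ) * ee (g.2 + g'.2) b *
      (Nh eps y z t χ b * Nh eps z y' s χ b)) / (2 * qq n)) ∧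
  (∑ h : Col n, term eps (g, y) (h, z) t = Nh eps y z t true 0) ∧
  (∑ h : Col n, term eps (h, z) (g', y') s = Nh eps z y' s true 0)

/-- D8: orthogonality of the truncated kernels -/
def P_ORTH : Prop := ∀ (n M : ℕ) (eps : Fin (M + 1) → V n → ℝ), Good eps →
  ∀ (T : ℕ) (x y : St n M),
    (∫ z, NT eps T x z * NT eps T z y ∂(muSt n M) = 0) ∧
    (∫ z, NT eps T x z ∂(muSt n M) = 0) ∧ (∫ z, NT eps T z y ∂(muSt n M) = 0)

/-- D9: the kernel -/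
def P_KER : Prop := ∀ (n M : ℕ) (eps : Fin (M + 1) → V n → ℝ), Good eps →
  Ker (muSt n M) (pp eps)

/-! ### E. the process -/

/-- E1 -/
def P_REP : Prop := ∀ (S : Type) (_ : MeasurableSpace S) (_ : StandardBorelSpace S)
  (_ : Nonempty S) (μ : Measure S) (_ : IsProbabilityMeasure μ) (p : S → S → ℝ),
  Ker μ p → ∃ F : S × S → unitInterval → S, Rep μ p F

/-- E2: integrating out the innovation -/
def P_BR : Prop := ∀ (S : Type) (_ : MeasurableSpace S)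
  (μ : Measure S) (_ : IsProbabilityMeasure μ) (p : S → S → ℝ) (F : S × S → unitInterval → S),
  Ker μ p → Rep μ p F → ∀ (x : S) (h : S → S → ℝ), Measurable (Function.uncurry h) →
    (∃ C : ℝ, ∀ y z, |h y z| ≤ C) →
    ∫ w, h w.1 (F (x, w.1) w.2) ∂(μ.prod (volume : Measure unitInterval))
      = ∫ z, p x z * (∫ y, p z y * h y z ∂μ) ∂μ

/-- E3: measurability -/
def P_XM : Prop := ∀ (S : Type) (_ : MeasurableSpace S) (F : S × S → unitInterval → S),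
  Measurable (Function.uncurry F) →
  (∀ i, Measurable (XX F i)) ∧ (∀ n, past F n ≤ MeasurableSpace.pi) ∧
  (∀ a : ℤ, past F (2 * a) ≤ base S a) ∧
  (∀ a : ℤ, past F (2 * a + 1) ≤ base S a ⊔ MeasurableSpace.comap (XX F (2 * a + 1)) inferInstance)

/-- E4: independence of the innovations -/
def P_INDEP : Prop := ∀ (S : Type) (_ : MeasurableSpace S)
  (μ : Measure S) (_ : IsProbabilityMeasure μ) (a : ℤ) (G : Set (Om S)),
  MeasurableSet[base S a] G → ∀ φ : S → S × unitInterval → ℝ, Measurable (Function.uncurry φ) →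
    (∃ C : ℝ, ∀ y w, |φ y w| ≤ C) →
    ∫ ω in G, φ (ω a).1 (ω (a + 1)) ∂(PM μ)
      = ∫ ω in G, (∫ w, φ (ω a).1 w ∂(μ.prod (volume : Measure unitInterval))) ∂(PM μ)

/-- E5: one-dimensional marginals -/
def P_LAW : Prop := ∀ (S : Type) (_ : MeasurableSpace S)
  (μ : Measure S) (_ : IsProbabilityMeasure μ) (p : S → S → ℝ) (F : S × S → unitInterval → S),
  Ker μ p → Rep μ p F → ∀ (n : ℤ) (f : S → ℝ), Measurable f → (∃ C : ℝ, ∀ z, |f z| ≤ C) →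
    ∫ ω, f (XX F n ω) ∂(PM μ) = ∫ z, f z ∂μ

/-- E6: one step of the process -/
def P_STEP : Prop := ∀ (S : Type) (_ : MeasurableSpace S)
  (μ : Measure S) (_ : IsProbabilityMeasure μ) (p : S → S → ℝ) (F : S × S → unitInterval → S),
  Ker μ p → Rep μ p F → ∀ (n : ℤ) (G : Set (Om S)), MeasurableSet[past F n] G →
    ∀ f : S → ℝ, Measurable f → (∃ C : ℝ, ∀ z, |f z| ≤ C) →
    ∫ ω in G, f (XX F (n + 1) ω) ∂(PM μ) = ∫ ω in G, Pf μ p f (XX F n ω) ∂(PM μ)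

/-- E6e: one step, even times -/
def P_STEPE : Prop := ∀ (S : Type) (_ : MeasurableSpace S)
  (μ : Measure S) (_ : IsProbabilityMeasure μ) (p : S → S → ℝ) (F : S × S → unitInterval → S),
  Ker μ p → Rep μ p F → ∀ (a : ℤ) (G : Set (Om S)), MeasurableSet[past F (2 * a)] G →
    ∀ f : S → ℝ, Measurable f → (∃ C : ℝ, ∀ z, |f z| ≤ C) →
    ∫ ω in G, f (XX F (2 * a + 1) ω) ∂(PM μ) = ∫ ω in G, Pf μ p f (XX F (2 * a) ω) ∂(PM μ)

/-- E6o: one step, odd times -/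
def P_STEPO : Prop := ∀ (S : Type) (_ : MeasurableSpace S)
  (μ : Measure S) (_ : IsProbabilityMeasure μ) (p : S → S → ℝ) (F : S × S → unitInterval → S),
  Ker μ p → Rep μ p F → ∀ (a : ℤ) (G : Set (Om S)), MeasurableSet[past F (2 * a + 1)] G →
    ∀ f : S → ℝ, Measurable f → (∃ C : ℝ, ∀ z, |f z| ≤ C) →
    ∫ ω in G, f (XX F (2 * a + 2) ω) ∂(PM μ) = ∫ ω in G, Pf μ p f (XX F (2 * a + 1) ω) ∂(PM μ)

/-- E7: equality of all finite window laws -/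
def P_WIN : Prop := ∀ (S : Type) (_ : MeasurableSpace S)
  (μ : Measure S) (_ : IsProbabilityMeasure μ) (p : S → S → ℝ) (F : S × S → unitInterval → S),
  Ker μ p → Rep μ p F → ∀ (N : ℕ) (f : ℕ → S → ℝ), (∀ i, Measurable (f i)) →
    (∃ C : ℝ, ∀ i z, |f i z| ≤ C) → ∀ k k' : ℤ,
    ∫ ω, ∏ i ∈ Finset.range (N + 1), f i (XX F (k + i) ω) ∂(PM μ)
      = ∫ ω, ∏ i ∈ Finset.range (N + 1), f i (XX F (k' + i) ω) ∂(PM μ)

/-- E8: a general criterion for stationarity -/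
def P_STATG : Prop := ∀ (S Ω : Type) (_ : MeasurableSpace S) (_ : MeasurableSpace Ω)
  (P : Measure Ω) (_ : IsProbabilityMeasure P) (X : ℤ → Ω → S), (∀ i, Measurable (X i)) →
  (∀ (N : ℕ) (f : ℕ → S → ℝ), (∀ i, Measurable (f i)) →
    (∃ C : ℝ, ∀ i z, |f i z| ≤ C) → ∀ k k' : ℤ,
    ∫ ω, ∏ i ∈ Finset.range (N + 1), f i (X (k + i) ω) ∂P
      = ∫ ω, ∏ i ∈ Finset.range (N + 1), f i (X (k' + i) ω) ∂P) →
  ∀ n : ℤ, P.map (fun ω (i : ℤ) => X (i + n) ω) = P.map (fun ω (i : ℤ) => X i ω)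

/-- E9: a general criterion for the Markov property -/
def P_MARKG : Prop := ∀ (S Ω : Type) (_ : MeasurableSpace S) (_ : MeasurableSpace Ω)
  (P : Measure Ω) (_ : IsProbabilityMeasure P) (X : ℤ → Ω → S), (∀ i, Measurable (X i)) →
  ∀ (n : ℤ) (A : Set S), MeasurableSet A → ∀ h : S → ℝ, Measurable h → (∃ C : ℝ, ∀ z, |h z| ≤ C) →
  (∀ G : Set Ω,
    MeasurableSet[⨆ (m : ℤ) (_ : m ≤ n), MeasurableSpace.comap (X m) inferInstance] G →
    ∫ ω in G, Set.indicator A (fun _ => (1 : ℝ)) (X (n + 1) ω) ∂P = ∫ ω in G, h (X n ω) ∂P) →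
  MeasureTheory.condExp (⨆ (m : ℤ) (_ : m ≤ n), MeasurableSpace.comap (X m) inferInstance) P
      (Set.indicator (X (n + 1) ⁻¹' A) (fun _ => (1 : ℝ)))
    =ᵐ[P] MeasureTheory.condExp (MeasurableSpace.comap (X n) inferInstance) P
      (Set.indicator (X (n + 1) ⁻¹' A) (fun _ => (1 : ℝ)))

/-- E10: independence at distance two, and the support of two consecutive values -/
def P_IND2 : Prop := ∀ (S : Type) (_ : MeasurableSpace S)
  (μ : Measure S) (_ : IsProbabilityMeasure μ) (p : S → S → ℝ) (F : S × S → unitInterval → S),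
  Ker μ p → Rep μ p F →
  IndepFun (XX F 0) (XX F 2) (PM μ) ∧
  ∀ B : Set (S × S), MeasurableSet B → (∀ x y, (x, y) ∈ B → p x y = 0) →
    ∀ᵐ ω ∂(PM μ), (XX F 0 ω, XX F 1 ω) ∉ B

/-- E11: the process exists -/
def P_PROC : Prop := ∀ (S : Type) (_ : MeasurableSpace S) (_ : StandardBorelSpace S)
  (_ : Nonempty S) (μ : Measure S) (_ : IsProbabilityMeasure μ) (p : S → S → ℝ), Ker μ p →
  ∃ (Ω : Type) (_ : MeasurableSpace Ω) (P : Measure Ω) (X : ℤ → Ω → S),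
    IsProbabilityMeasure P ∧ (∀ i, Measurable (X i)) ∧
    (∀ n : ℤ, P.map (fun ω (i : ℤ) => X (i + n) ω) = P.map (fun ω (i : ℤ) => X i ω)) ∧
    (∀ (n : ℤ) (A : Set S), MeasurableSet A →
      MeasureTheory.condExp (⨆ (m : ℤ) (_ : m ≤ n), MeasurableSpace.comap (X m) inferInstance) P
          (Set.indicator (X (n + 1) ⁻¹' A) (fun _ => (1 : ℝ)))
        =ᵐ[P] MeasureTheory.condExp (MeasurableSpace.comap (X n) inferInstance) P
          (Set.indicator (X (n + 1) ⁻¹' A) (fun _ => (1 : ℝ)))) ∧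
    IndepFun (X 0) (X 2) P ∧
    ∀ B : Set (S × S), MeasurableSet B → (∀ x y, (x, y) ∈ B → p x y = 0) →
      ∀ᵐ ω ∂P, (X 0 ω, X 1 ω) ∉ B

/-- E12: separation of colours -/
def P_METRIC : Prop := ∀ (S C : Type) (_ : MetricSpace S) (_ : CompactSpace S)
  (_ : TopologicalSpace C) (_ : DiscreteTopology C) (col : S → C), Continuous col →
  ∃ ε : ℝ, 0 < ε ∧ ∀ x y, col x ≠ col y → ε ≤ dist x y

end Pool.Agent.W172.MK
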